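import Pool.Agent.Helper78.Ep.Goals
import Pool.Agent.Helper33.Ram.REL

/-!
# REL: the operations on digits do the same as the operations on states

Adapted from `Pool.Agent.Helper33.Tok.REL`.
-/

namespace Pool.Agent.Helper77.Ep

open Pool.Agent.Helper65.LinSpace Finset Pool.Agent.Helper78.Ep
open Pool.Agent.Helper78.Tok (fhG rgn)
open Pool.Agent.Helper28.Ram (trc)
open Pool.Agent.Helper28.Ram.Mach (sgz)
open Pool.Agent.Helper33.Ram (ifz_pos eq01_pos eq01_neg lt01_pos lt01_neg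
  le01_pos le01_neg)

/-! ### Codes -/

section

variable {p : ℕ} (m : Mach) (s : Mach.St p)

theorem enc0 (k : ℕ) : m.enc s (5 * k) = (s.R k).val := by
  have h1 : 5 * k % 5 = 0 := by omega
  have h2 : 5 * k / 5 = k := by omega
  unfold Mach.enc
  rw [h1, h2]
  simp

theorem enc1 (k : ℕ) : m.enc s (5 * k + 1) = s.md k := by
  have h1 : (5 * k + 1) % 5 = 1 := by omega
  have h2 : (5 * k + 1) / 5 = k := by omega
  unfold Mach.enc
  rw [h1, h2]
  simp

theorem enc2 (k : ℕ) : m.enc s (5 * k + 2) = s.nd k := by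
  have h1 : (5 * k + 2) % 5 = 2 := by omega
  have h2 : (5 * k + 2) / 5 = k := by omega
  unfold Mach.enc
  rw [h1, h2]
  simp

theorem enc3 (k : ℕ) : m.enc s (5 * k + 3) = s.sg k := by
  have h1 : (5 * k + 3) % 5 = 3 := by omega
  have h2 : (5 * k + 3) / 5 = k := by omega
  unfold Mach.enc
  rw [h1, h2]
  simp

theorem enc4 (k : ℕ) : m.enc s (5 * k + 4) = dig 2 (s.qa (k / m.lam)) (k % m.lam) := by
  have h1 : (5 * k + 4) % 5 = 4 := by omega
  have h2 : (5 * k + 4) / 5 = k := by omega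
  unfold Mach.enc
  rw [h1, h2]
  simp

end

/-- The entries of the digits. -/
structure Dat {p : ℕ} (m : Mach) (J K : ℕ) (a : ℕ → ℕ) (s : Mach.St p) : Prop where
  lt : ∀ x < 5 * J, a x < p
  R : ∀ k < J, a (5 * k) = (s.R k).val
  md : ∀ k < J, a (5 * k + 1) = s.md k
  nd : ∀ k < J, a (5 * k + 2) = s.nd k
  sg : ∀ k < J, a (5 * k + 3) = s.sg k
  qa : ∀ k < J, a (5 * k + 4) = dig 2 (s.qa (k / m.lam)) (k % m.lam)
  q2 : ∀ t ≤ K, s.qa t < 2 ^ m.lam

theorem rel_iff {p : ℕ} (m : Mach) (J K : ℕ) (a : ℕ → ℕ) (s : Mach.St p) :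
    m.Rel J K a s ↔ Dat m J K a s := by
  constructor
  · rintro ⟨h1, h2⟩
    refine ⟨fun x hx => (h1 x hx).2, fun k hk => ?_, fun k hk => ?_, fun k hk => ?_, fun k hk => ?_,
      fun k hk => ?_, h2⟩
    · rw [(h1 (5 * k) (by omega)).1, enc0]
    · rw [(h1 (5 * k + 1) (by omega)).1, enc1]
    · rw [(h1 (5 * k + 2) (by omega)).1, enc2]
    · rw [(h1 (5 * k + 3) (by omega)).1, enc3]
    · rw [(h1 (5 * k + 4) (by omega)).1, enc4]
  · intro h
    refine ⟨fun x hx => ⟨?_, h.lt x hx⟩, h.q2⟩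
    obtain ⟨k, c, hc, rfl⟩ : ∃ k c, c < 5 ∧ x = 5 * k + c :=
      ⟨x / 5, x % 5, Nat.mod_lt _ (by norm_num), by omega⟩
    have hk : k < J := by omega
    interval_cases c
    · rw [add_zero, enc0, h.R k hk]
    · rw [enc1, h.md k hk]
    · rw [enc2, h.nd k hk]
    · rw [enc3, h.sg k hk]
    · rw [enc4, h.qa k hk]

section

variable (m : Mach) (p l j : ℕ) (a : ℕ → ℕ) (k : ℕ)

theorem opA0 : m.opA p l j a (5 * k) = m.nR p l j a k % p := by
  have h1 : 5 * k % 5 = 0 := by omega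
  have h2 : 5 * k / 5 = k := by omega
  unfold Mach.opA
  rw [h1, h2]
  simp [ifz]

theorem opA1 : m.opA p l j a (5 * k + 1) = ifz (eq01 k l) (a (5 * k + 1)) (m.cMd p l j a) % p := by
  have h1 : (5 * k + 1) % 5 = 1 := by omega
  have h2 : (5 * k + 1) / 5 = k := by omega
  unfold Mach.opA
  rw [h1, h2]
  simp [ifz]

theorem opA2 : m.opA p l j a (5 * k + 2) = ifz (eq01 k l) (a (5 * k + 2)) (m.cNd p l j a) % p := by
  have h1 : (5 * k + 2) % 5 = 2 := by omega
  have h2 : (5 * k + 2) / 5 = k := by omega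
  unfold Mach.opA
  rw [h1, h2]
  simp [ifz]

theorem opA3 : m.opA p l j a (5 * k + 3) = ifz (eq01 k l) (a (5 * k + 3)) (m.cSg p l j a) % p := by
  have h1 : (5 * k + 3) % 5 = 3 := by omega
  have h2 : (5 * k + 3) / 5 = k := by omega
  unfold Mach.opA
  rw [h1, h2]
  simp [ifz]

theorem opA4 : m.opA p l j a (5 * k + 4) = m.nQ p l j a k % p := by
  have h1 : (5 * k + 4) % 5 = 4 := by omega
  have h2 : (5 * k + 4) / 5 = k := by omega
  unfold Mach.opA
  rw [h1, h2]
  simp [ifz]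

end

/-- A new state is built from its parts. -/
theorem build {p : ℕ} (m : Mach) (hp2 : 2 < p) {J K : ℕ} {a : ℕ → ℕ} {s : Mach.St p}
    (h : Dat m J K a s) {l j : ℕ} (R' : ℕ → ZMod p) (qa' : ℕ → ℕ) (c i g : ℕ)
    (hR : ∀ k < J, ((m.nR p l j a k : ℕ) : ZMod p) = R' k)
    (hc : m.cMd p l j a = c ∧ c < p) (hi : m.cNd p l j a = i ∧ i < p)
    (hg : m.cSg p l j a = g ∧ g < p)
    (hq : ∀ k < J, m.nQ p l j a k = dig 2 (qa' (k / m.lam)) (k % m.lam))
    (hq2 : ∀ t ≤ K, qa' t < 2 ^ m.lam) :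
    Dat m J K (trc (5 * J) (m.opA p l j a))
      (({ s with R := R', qa := qa' } : Mach.St p).call l c i g) := by
  have hp : 0 < p := by omega
  have ht : ∀ x < 5 * J, trc (5 * J) (m.opA p l j a) x = m.opA p l j a x := fun x hx => if_pos hx
  have hv : ∀ n : ℕ, ∀ z : ZMod p, (n : ZMod p) = z → n % p = z.val := by
    intro n z hz
    rw [← hz, ZMod.val_natCast]
  refine ⟨fun x hx => ?_, fun k hk => ?_, fun k hk => ?_, fun k hk => ?_, fun k hk => ?_,
    fun k hk => ?_, hq2⟩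
  · rw [ht x hx]
    exact Nat.mod_lt _ hp
  · rw [ht _ (by omega), opA0]
    exact hv _ _ (hR k hk)
  · rw [ht _ (by omega), opA1]
    show _ = Function.update s.md l c k
    by_cases hkl : k = l
    · subst hkl
      rw [Function.update_self, ifz, eq01, if_pos rfl, if_neg (by norm_num), hc.1,
        Nat.mod_eq_of_lt hc.2]
    · rw [Function.update_of_ne hkl, ifz, eq01, if_neg hkl, if_pos rfl,
        Nat.mod_eq_of_lt (h.lt _ (by omega)), h.md k hk]
  · rw [ht _ (by omega), opA2]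
    show _ = Function.update s.nd l i k
    by_cases hkl : k = l
    · subst hkl
      rw [Function.update_self, ifz, eq01, if_pos rfl, if_neg (by norm_num), hi.1,
        Nat.mod_eq_of_lt hi.2]
    · rw [Function.update_of_ne hkl, ifz, eq01, if_neg hkl, if_pos rfl,
        Nat.mod_eq_of_lt (h.lt _ (by omega)), h.nd k hk]
  · rw [ht _ (by omega), opA3]
    show _ = Function.update s.sg l g k
    by_cases hkl : k = l
    · subst hkl
      rw [Function.update_self, ifz, eq01, if_pos rfl, if_neg (by norm_num), hg.1,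
        Nat.mod_eq_of_lt hg.2]
    · rw [Function.update_of_ne hkl, ifz, eq01, if_neg hkl, if_pos rfl,
        Nat.mod_eq_of_lt (h.lt _ (by omega)), h.sg k hk]
  · rw [ht _ (by omega), opA4, hq k hk]
    exact Nat.mod_eq_of_lt ((dig_lt (by norm_num) _ _).trans hp2)

section

variable {p : ℕ} {m : Mach} {J K : ℕ} {a : ℕ → ℕ} {s : Mach.St p}

theorem Dat.qN (hok : m.Ok) (hf : m.Fit p J K) (h : Dat m J K a s) {t : ℕ} (ht : t ≤ K) :
    m.qN a t = s.qa t := by
  have hl := hok.hl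
  unfold Mach.qN
  rw [← tab_dig (q := 2) (s.qa t) m.lam (h.q2 t ht)]
  refine tab_congr fun o ho => ?_
  have h1 : t * m.lam + o < J := by
    have h2 := hf.h3
    have h4 : t * m.lam ≤ K * m.lam := Nat.mul_le_mul_right _ ht
    have h5 : (K + 1) * m.lam = K * m.lam + m.lam := by ring
    omega
  rw [h.qa _ h1]
  have h2 : (t * m.lam + o) / m.lam = t := by
    rw [mul_comm, Nat.mul_add_div hl, Nat.div_eq_of_lt ho, add_zero]
  have h3 : (t * m.lam + o) % m.lam = o := by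
    rw [mul_comm, Nat.mul_add_mod, Nat.mod_eq_of_lt ho]
  rw [h2, h3]

variable [hpr : Fact p.Prime]

theorem Dat.Rc (h : Dat m J K a s) {k : ℕ} (hk : k < J) :
    ((a (5 * k) : ℕ) : ZMod p) = s.R k := by
  rw [h.R k hk, ZMod.natCast_zmod_val]

/-- The registers stay the same or are changed without an evaluation. -/
theorem rel_same (hf : m.Fit p J K) (h : Dat m J K a s) {l j : ℕ}
    (hY : m.isY a l = 0) (hZ : m.isZ p a l j = 0) (R' : ℕ → ZMod p) (c i g : ℕ)
    (hR : ∀ k < J, ((m.nR p l j a k : ℕ) : ZMod p) = R' k)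
    (hc : m.cMd p l j a = c ∧ c < p) (hi : m.cNd p l j a = i ∧ i < p)
    (hg : m.cSg p l j a = g ∧ g < p) :
    Dat m J K (trc (5 * J) (m.opA p l j a)) (({ s with R := R' } : Mach.St p).call l c i g) := by
  refine build m hf.h5 h R' s.qa c i g hR hc hi hg (fun k hk => ?_) h.q2
  unfold Mach.nQ
  rw [hY, hZ, zero_mul]
  unfold ifz
  split_ifs <;> first | exact h.qa k hk | simp_all

end

/-- The operations of a node. -/
theorem relN {p : ℕ} [hpr : Fact p.Prime] {m : Mach} {J K : ℕ} {a : ℕ → ℕ} {s : Mach.St p}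
    (hf : m.Fit p J K) (h : Dat m J K a s) {l j : ℕ}
    (hl : l < K * (m.G + 2)) (hm : l % (m.G + 2) ≠ 0) :
    Dat m J K (trc (5 * J) (m.opA p l j a)) (m.op l j s) := by
  have hp := hf.h5
  have hG := hf.h4
  have hJ : l + 1 < J := lt_of_le_of_lt hl hf.h2
  have e1 := h.md (l + 1) hJ
  have e2 := h.nd (l + 1) hJ
  have e3 := h.sg (l + 1) hJ
  have l3 := h.lt (5 * (l + 1) + 3) (by omega)
  rw [e3] at l3
  have l2 := h.lt (5 * (l + 1) + 2) (by omega)
  rw [e2] at l2
  have hY : m.isY a l = 0 := by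
    unfold Mach.isY
    rw [eq01_neg hm, zero_mul]
  have hZ : m.isZ p a l j = 0 := by
    unfold Mach.isZ
    rw [eq01_neg hm, zero_mul]
  have hop : m.op l j s = m.opN l (l % (m.G + 2)) j s := by
    unfold Mach.op
    rw [if_neg hm]
  rw [hop]
  have hpos : 0 < l % (m.G + 2) := Nat.pos_of_ne_zero hm
  by_cases hA : s.md (l + 1) = 1 ∧ min (s.nd (l + 1)) m.G < l % (m.G + 2) ∧
      s.nd (l + 1) ≤ m.G + m.E
  · have hN : m.isN a l = 1 := by
      unfold Mach.isN
      rw [e1, e2, lt01_pos hpos, eq01_pos hA.1, lt01_pos hA.2.1, le01_pos hA.2.2]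
    have hw : j % (2 * m.G + 3) < 2 * m.G + 3 := Nat.mod_lt _ (by omega)
    have hR0 : j % (2 * m.G + 3) ≠ 0 → j % (2 * m.G + 3) ≠ 2 * m.G + 2 →
        ∀ k < J, ((m.nR p l j a k : ℕ) : ZMod p) = s.R k := by
      intro h0 h1 k hk
      unfold Mach.nR
      rw [hY, ifz_zero, hZ, ifz_zero, eq01_neg h1, ifz_zero, ifz_pos h0]
      unfold ifz
      split_ifs <;> exact h.Rc hk
    unfold Mach.opN
    rw [if_pos hA]
    by_cases h0 : j % (2 * m.G + 3) = 0
    · rw [if_pos h0]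
      refine rel_same hf h hY hZ _ 0 0 0 (fun k hk => ?_) ⟨?_, by omega⟩ ⟨?_, by omega⟩
        ⟨?_, by omega⟩
      · unfold Mach.nR Mach.scaR
        rw [hY, hZ, hN, ifz_zero, ifz_zero, h0, ifz_zero, one_mul, e2]
        by_cases hk2 : k < min (s.nd (l + 1)) m.G * m.wn
        · rw [lt01_pos hk2, ifz_pos one_ne_zero, if_pos ⟨Nat.zero_le _, by omega⟩, ZMod.natCast_mod, Nat.cast_mul,
            h.Rc hk]
        · rw [lt01_neg hk2, ifz_zero, if_neg (by omega), h.Rc hk]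
      · unfold Mach.cMd
        rw [hY, ifz_zero, hZ, ifz_zero, hN, ifz_pos one_ne_zero, h0, ifz_zero]
      · unfold Mach.cNd
        rw [hY, ifz_zero, hZ, ifz_zero, hN, ifz_pos one_ne_zero, h0, ifz_zero]
      · unfold Mach.cSg
        rw [hY, ifz_zero, hZ, ifz_zero, hN, ifz_pos one_ne_zero, h0, ifz_zero]
    rw [if_neg h0]
    by_cases h1 : j % (2 * m.G + 3) ≤ m.G
    · rw [if_pos h1]
      have hR := hR0 h0 (by omega)
      by_cases h2 : j % (2 * m.G + 3) - 1 < s.nd (l + 1)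
      · rw [if_pos h2]
        refine rel_same hf h hY hZ _ 1 (j % (2 * m.G + 3) - 1) 0 hR ⟨?_, by omega⟩ ⟨?_, by omega⟩
          ⟨?_, by omega⟩
        · unfold Mach.cMd
          rw [hY, ifz_zero, hZ, ifz_zero, hN, ifz_pos one_ne_zero, ifz_pos h0, le01_pos h1,
            ifz_pos one_ne_zero, e2, lt01_pos h2]
        · unfold Mach.cNd
          rw [hY, ifz_zero, hZ, ifz_zero, hN, ifz_pos one_ne_zero, ifz_pos h0, le01_pos h1,
            ifz_pos one_ne_zero, e2, lt01_pos h2, one_mul]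
        · unfold Mach.cSg
          rw [hY, ifz_zero, hZ, ifz_zero, hN, ifz_pos one_ne_zero, ifz_pos h0, le01_pos h1,
            ifz_pos one_ne_zero]
      · rw [if_neg h2]
        refine rel_same hf h hY hZ _ 0 0 0 hR ⟨?_, by omega⟩ ⟨?_, by omega⟩ ⟨?_, by omega⟩
        · unfold Mach.cMd
          rw [hY, ifz_zero, hZ, ifz_zero, hN, ifz_pos one_ne_zero, ifz_pos h0, le01_pos h1,
            ifz_pos one_ne_zero, e2, lt01_neg h2]
        · unfold Mach.cNd
          rw [hY, ifz_zero, hZ, ifz_zero, hN, ifz_pos one_ne_zero, ifz_pos h0, le01_pos h1,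
            ifz_pos one_ne_zero, e2, lt01_neg h2, zero_mul]
        · unfold Mach.cSg
          rw [hY, ifz_zero, hZ, ifz_zero, hN, ifz_pos one_ne_zero, ifz_pos h0, le01_pos h1,
            ifz_pos one_ne_zero]
    rw [if_neg h1]
    by_cases h3 : j % (2 * m.G + 3) = m.G + 1
    · rw [if_pos h3]
      have hR := hR0 h0 (by omega)
      refine rel_same hf h hY hZ _ 2 (s.nd (l + 1)) (s.sg (l + 1)) hR ⟨?_, by omega⟩ ⟨?_, l2⟩ ⟨?_, l3⟩
      · unfold Mach.cMd
        rw [hY, ifz_zero, hZ, ifz_zero, hN, ifz_pos one_ne_zero, ifz_pos h0, le01_neg h1,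
          ifz_zero, eq01_pos h3, ifz_pos one_ne_zero]
      · unfold Mach.cNd
        rw [hY, ifz_zero, hZ, ifz_zero, hN, ifz_pos one_ne_zero, ifz_pos h0, le01_neg h1,
          ifz_zero, eq01_pos h3, ifz_pos one_ne_zero, e2]
      · unfold Mach.cSg
        rw [hY, ifz_zero, hZ, ifz_zero, hN, ifz_pos one_ne_zero, ifz_pos h0, le01_neg h1,
          ifz_zero, eq01_pos h3, ifz_pos one_ne_zero, e3]
    rw [if_neg h3]
    by_cases h4 : j % (2 * m.G + 3) ≤ 2 * m.G + 1
    · rw [if_pos h4]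
      have hR := hR0 h0 (by omega)
      by_cases h5 : j % (2 * m.G + 3) - (m.G + 2) < s.nd (l + 1)
      · rw [if_pos h5]
        refine rel_same hf h hY hZ _ 1 (j % (2 * m.G + 3) - (m.G + 2)) 1 hR ⟨?_, by omega⟩
          ⟨?_, by omega⟩ ⟨?_, by omega⟩
        · unfold Mach.cMd
          rw [hY, ifz_zero, hZ, ifz_zero, hN, ifz_pos one_ne_zero, ifz_pos h0, le01_neg h1,
            ifz_zero, eq01_neg h3, ifz_zero, le01_pos h4, ifz_pos one_ne_zero, e2, lt01_pos h5]
        · unfold Mach.cNd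
          rw [hY, ifz_zero, hZ, ifz_zero, hN, ifz_pos one_ne_zero, ifz_pos h0, le01_neg h1,
            ifz_zero, eq01_neg h3, ifz_zero, le01_pos h4, ifz_pos one_ne_zero, e2, lt01_pos h5,
            one_mul]
        · unfold Mach.cSg
          rw [hY, ifz_zero, hZ, ifz_zero, hN, ifz_pos one_ne_zero, ifz_pos h0, le01_neg h1,
            ifz_zero, eq01_neg h3, ifz_zero, le01_pos h4, ifz_pos one_ne_zero, e2, lt01_pos h5]
      · rw [if_neg h5]
        refine rel_same hf h hY hZ _ 0 0 0 hR ⟨?_, by omega⟩ ⟨?_, by omega⟩ ⟨?_, by omega⟩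
        · unfold Mach.cMd
          rw [hY, ifz_zero, hZ, ifz_zero, hN, ifz_pos one_ne_zero, ifz_pos h0, le01_neg h1,
            ifz_zero, eq01_neg h3, ifz_zero, le01_pos h4, ifz_pos one_ne_zero, e2, lt01_neg h5]
        · unfold Mach.cNd
          rw [hY, ifz_zero, hZ, ifz_zero, hN, ifz_pos one_ne_zero, ifz_pos h0, le01_neg h1,
            ifz_zero, eq01_neg h3, ifz_zero, le01_pos h4, ifz_pos one_ne_zero, e2, lt01_neg h5,
            zero_mul]
        · unfold Mach.cSg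
          rw [hY, ifz_zero, hZ, ifz_zero, hN, ifz_pos one_ne_zero, ifz_pos h0, le01_neg h1,
            ifz_zero, eq01_neg h3, ifz_zero, le01_pos h4, ifz_pos one_ne_zero, e2, lt01_neg h5]
    · rw [if_neg h4]
      have h6 : j % (2 * m.G + 3) = 2 * m.G + 2 := by omega
      refine rel_same hf h hY hZ _ 0 0 0 (fun k hk => ?_) ⟨?_, by omega⟩ ⟨?_, by omega⟩
        ⟨?_, by omega⟩
      · unfold Mach.nR Mach.scaR
        rw [hY, hZ, hN, ifz_zero, ifz_zero, ifz_pos h0, eq01_pos h6, ifz_pos one_ne_zero, one_mul, e2]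
        by_cases hk2 : k < min (s.nd (l + 1)) m.G * m.wn
        · rw [lt01_pos hk2, ifz_pos one_ne_zero, if_pos ⟨Nat.zero_le _, by omega⟩, ZMod.natCast_mod, Nat.cast_mul,
            h.Rc hk, invN_cast hp]
        · rw [lt01_neg hk2, ifz_zero, if_neg (by omega), h.Rc hk]
      · unfold Mach.cMd
        rw [hY, ifz_zero, hZ, ifz_zero, hN, ifz_pos one_ne_zero, ifz_pos h0, le01_neg h1,
          ifz_zero, eq01_neg h3, ifz_zero, le01_neg h4, ifz_zero]
      · unfold Mach.cNd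
        rw [hY, ifz_zero, hZ, ifz_zero, hN, ifz_pos one_ne_zero, ifz_pos h0, le01_neg h1,
          ifz_zero, eq01_neg h3, ifz_zero, le01_neg h4, ifz_zero]
      · unfold Mach.cSg
        rw [hY, ifz_zero, hZ, ifz_zero, hN, ifz_pos one_ne_zero, ifz_pos h0, le01_neg h1,
          ifz_zero, eq01_neg h3, ifz_zero, le01_neg h4, ifz_zero]
  · have hN : m.isN a l = 0 := by
      unfold Mach.isN
      rw [e1, e2, lt01_pos hpos, one_mul]
      by_cases h1 : s.md (l + 1) = 1
      · by_cases h2 : min (s.nd (l + 1)) m.G < l % (m.G + 2)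
        · rw [le01_neg fun h3 => hA ⟨h1, h2, h3⟩, mul_zero, mul_zero]
        · rw [lt01_neg h2, zero_mul, mul_zero]
      · rw [eq01_neg h1, zero_mul]
    have hR : ∀ k < J, ((m.nR p l j a k : ℕ) : ZMod p) = s.R k := by
      intro k hk
      unfold Mach.nR
      rw [hY, hZ, hN, ifz_zero, ifz_zero, zero_mul, ifz_zero, h.Rc hk]
    unfold Mach.opN
    rw [if_neg hA]
    by_cases hB : s.md (l + 1) = 2 ∧ s.nd (l + 1) ≤ m.G + m.E ∧ j = 0
    · have hP : m.isP a l j = 1 := by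
        unfold Mach.isP
        rw [e1, e2, lt01_pos hpos, eq01_pos hB.1, le01_pos hB.2.1, eq01_pos hB.2.2]
      rw [if_pos hB]
      refine rel_same hf h hY hZ _ 2 (s.nd (l + 1)) (s.sg (l + 1)) hR ⟨?_, by omega⟩ ⟨?_, l2⟩ ⟨?_, l3⟩
      · unfold Mach.cMd
        rw [hY, hZ, hN, ifz_zero, ifz_zero, ifz_zero, hP, ifz_pos one_ne_zero]
      · unfold Mach.cNd
        rw [hY, hZ, hN, ifz_zero, ifz_zero, ifz_zero, hP, ifz_pos one_ne_zero, e2]
      · unfold Mach.cSg
        rw [hY, hZ, hN, ifz_zero, ifz_zero, ifz_zero, hP, ifz_pos one_ne_zero, e3]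
    · have hP : m.isP a l j = 0 := by
        unfold Mach.isP
        rw [e1, e2, lt01_pos hpos, one_mul]
        by_cases h1 : s.md (l + 1) = 2
        · by_cases h2 : s.nd (l + 1) ≤ m.G + m.E
          · rw [eq01_neg fun h3 => hB ⟨h1, h2, h3⟩, mul_zero]
          · rw [le01_neg h2, mul_zero, zero_mul]
        · rw [eq01_neg h1, zero_mul, zero_mul]
      rw [if_neg hB]
      refine rel_same hf h hY hZ _ 0 0 0 hR ⟨?_, by omega⟩ ⟨?_, by omega⟩ ⟨?_, by omega⟩
      · unfold Mach.cMd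
        rw [hY, hZ, hN, ifz_zero, ifz_zero, ifz_zero, hP, ifz_zero]
      · unfold Mach.cNd
        rw [hY, hZ, hN, ifz_zero, ifz_zero, ifz_zero, hP, ifz_zero]
      · unfold Mach.cSg
        rw [hY, hZ, hN, ifz_zero, ifz_zero, ifz_zero, hP, ifz_zero]

/-- A range of registers. -/
theorem rgn_pos {lo n x : ℕ} (h : lo ≤ x ∧ x < lo + n) : rgn lo n x = 1 := by
  unfold rgn
  rw [le01_pos h.1, lt01_pos h.2]

theorem rgn_neg {lo n x : ℕ} (h : ¬(lo ≤ x ∧ x < lo + n)) : rgn lo n x = 0 := by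
  unfold rgn
  by_cases h1 : lo ≤ x
  · rw [lt01_neg fun h2 => h ⟨h1, h2⟩, mul_zero]
  · rw [le01_neg h1, zero_mul]

theorem loN_eq (m : Mach) (i : ℕ) : m.loN i = m.lo i := by
  unfold Mach.loN Mach.lo
  by_cases h : i < m.G
  · rw [lt01_pos h, ifz_pos one_ne_zero, if_pos h]
  · rw [lt01_neg h, ifz_zero, if_neg h]

theorem lnN_eq (m : Mach) (i : ℕ) : m.lnN i = m.ln i := by
  unfold Mach.lnN Mach.ln
  by_cases h : i < m.G
  · rw [lt01_pos h, ifz_pos one_ne_zero, if_pos h]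
  · rw [lt01_neg h, ifz_zero, if_neg h]

/-- Multiplication of a range of registers. -/
theorem sca_case {p : ℕ} [Fact p.Prime] {m : Mach} {J K : ℕ} {a : ℕ → ℕ} {s : Mach.St p}
    (h : Dat m J K a s) {x : ℕ} (hx : x < J) (lo n c : ℕ) (u : ZMod p) (hc : ((c : ℕ) : ZMod p) = u) :
    ((ifz (rgn lo n x) (a (5 * x)) (c * a (5 * x) % p) : ℕ) : ZMod p) = Mach.scaR lo n u s.R x := by
  unfold Mach.scaR
  by_cases h1 : lo ≤ x ∧ x < lo + n
  · rw [rgn_pos h1, ifz_pos one_ne_zero, if_pos h1, ZMod.natCast_mod, Nat.cast_mul, hc, h.Rc hx]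
  · rw [rgn_neg h1, ifz_zero, if_neg h1, h.Rc hx]

/-- The sign. -/
theorem sgn_cast {p : ℕ} [hpr : Fact p.Prime] (g : ℕ) :
    ((ifz g 1 (p - 1) : ℕ) : ZMod p) = sgz p g := by
  have hp : 1 ≤ p := hpr.out.one_lt.le
  by_cases hs : g = 0
  · rw [hs, ifz_zero, sgz, if_pos rfl, Nat.cast_one]
  · rw [ifz_pos hs, sgz, if_neg hs, Nat.cast_sub hp, ZMod.natCast_self]
    push_cast
    ring

/-- Addition to a range of registers. -/
theorem add_case {p : ℕ} [Fact p.Prime] {m : Mach} {J K : ℕ} {a : ℕ → ℕ} {s : Mach.St p}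
    (h : Dat m J K a s) {x : ℕ} (hx : x < J) (lo n g v : ℕ) (w : ℕ → ZMod p)
    (hv : ((v : ℕ) : ZMod p) = w (x - lo)) :
    ((ifz (rgn lo n x) (a (5 * x)) ((a (5 * x) + ifz g 1 (p - 1) * v) % p) : ℕ) : ZMod p) =
      Mach.addR lo n (fun o => sgz p g * w o) s.R x := by
  unfold Mach.addR
  by_cases h1 : lo ≤ x ∧ x < lo + n
  · rw [rgn_pos h1, ifz_pos one_ne_zero, if_pos h1, ZMod.natCast_mod, Nat.cast_add, Nat.cast_mul,
      h.Rc hx, sgn_cast, hv]
  · rw [rgn_neg h1, ifz_zero, if_neg h1, h.Rc hx]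

/-- The variables of a node. -/
theorem vars_cast {p : ℕ} [Fact p.Prime] {m : Mach} {J K : ℕ} {a : ℕ → ℕ} {s : Mach.St p}
    (hf : m.Fit p J K) (h : Dat m J K a s) {i : ℕ} (hi : i ≤ m.G) (c n : ℕ)
    (hc : c + n ≤ J) (j' : ℕ) (hj' : j' < i * m.wn + n) :
    m.varN i (fun i => a (5 * i)) (fun o => a (5 * (c + o))) j' < p ∧
      ((m.varN i (fun i => a (5 * i)) (fun o => a (5 * (c + o))) j' : ℕ) : ZMod p) =
        m.vars p i s.R (fun o => s.R (c + o)) j' := by
  have h1 := hf.h1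
  have h2 : i * m.wn ≤ m.G * m.wn := Nat.mul_le_mul_right _ hi
  unfold Mach.varN Mach.vars
  by_cases h3 : j' < i * m.wn
  · have h4 : j' < J := by omega
    rw [lt01_pos h3, ifz_pos one_ne_zero, if_pos h3]
    exact ⟨h.lt _ (by omega), h.Rc h4⟩
  · have h4 : c + (j' - i * m.wn) < J := by omega
    rw [lt01_neg h3, ifz_zero, if_neg h3]
    exact ⟨h.lt _ (by omega), h.Rc h4⟩

/-- The operations of the evaluation of the polynomials of a node before `G`. -/
theorem relY {p : ℕ} [hpr : Fact p.Prime] {m : Mach} {J K : ℕ} {a : ℕ → ℕ} {s : Mach.St p}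
    (hF : Pool.Agent.Helper78.Tok.FCAST_stmt) (hok : m.Ok) (hf : m.Fit p J K) (h : Dat m J K a s)
    {l j : ℕ} (hl : l < K * (m.G + 2)) (hm : l % (m.G + 2) = 0)
    (hA : s.md (l + 1) = 2 ∧ s.nd (l + 1) < m.G) :
    Dat m J K (trc (5 * J) (m.opA p l j a))
      (m.opY l (l / (m.G + 2)) (j / m.nE p) (j % m.nE p / (2 * m.E + 3) + 1)
        (j % (2 * m.E + 3)) s) := by
  have hp := hf.h5
  have hG := hf.h4
  have hE := hok.hE
  have hJ : l + 1 < J := lt_of_le_of_lt hl hf.h2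
  have e1 := h.md (l + 1) hJ
  have e2 := h.nd (l + 1) hJ
  have e3 := h.sg (l + 1) hJ
  have hkK : l / (m.G + 2) < K := by
    rw [Nat.div_lt_iff_lt_mul (by omega)]
    exact hl
  have hY : m.isY a l = 1 := by
    unfold Mach.isY
    rw [eq01_pos hm, e1, e2, eq01_pos hA.1, lt01_pos hA.2]
  have hnR : ∀ x, m.nR p l j a x = m.yR p (s.nd (l + 1)) (j / m.nE p)
      (j % m.nE p / (2 * m.E + 3) + 1) (j % (2 * m.E + 3)) (s.sg (l + 1)) a x := by
    intro x
    unfold Mach.nR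
    rw [hY, ifz_pos one_ne_zero, e2, e3]
  have hMd : m.cMd p l j a = ifz (j % (2 * m.E + 3)) 0
      (ifz (le01 (j % (2 * m.E + 3)) m.E)
        (ifz (eq01 (j % (2 * m.E + 3)) (m.E + 1)) (le01 (j % (2 * m.E + 3)) (2 * m.E + 1)) 0)
        1) := by
    unfold Mach.cMd
    rw [hY, ifz_pos one_ne_zero]
  have hNd : m.cNd p l j a = ifz (j % (2 * m.E + 3)) 0
      (ifz (le01 (j % (2 * m.E + 3)) m.E)
        (ifz (eq01 (j % (2 * m.E + 3)) (m.E + 1))
          (le01 (j % (2 * m.E + 3)) (2 * m.E + 1) * (m.G + (j % (2 * m.E + 3) - (m.E + 2)))) 0)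
        (m.G + (j % (2 * m.E + 3) - 1))) := by
    unfold Mach.cNd
    rw [hY, ifz_pos one_ne_zero]
  have hSg : m.cSg p l j a = ifz (j % (2 * m.E + 3)) 0
      (ifz (le01 (j % (2 * m.E + 3)) m.E)
        (ifz (eq01 (j % (2 * m.E + 3)) (m.E + 1)) (le01 (j % (2 * m.E + 3)) (2 * m.E + 1)) 0)
        0) := by
    unfold Mach.cSg
    rw [hY, ifz_pos one_ne_zero]
  have hnQ : ∀ x, m.nQ p l j a x = ifz (eq01 (x / m.lam) (l / (m.G + 2))) (a (5 * x + 4))
      (ifz (j % (2 * m.E + 3)) (a (5 * x + 4))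
        (ifz (le01 (j % (2 * m.E + 3)) m.E)
          (ifz (le01 (m.E + 2) (j % (2 * m.E + 3)) * le01 (j % (2 * m.E + 3)) (2 * m.E + 1))
            (a (5 * x + 4))
            (dig 2 (dig (2 ^ m.lam) (j / m.nE p) (j % (2 * m.E + 3) - (m.E + 2))) (x % m.lam)))
          (dig 2 (dig (2 ^ m.lam) (j / m.nE p) (j % (2 * m.E + 3) - 1)) (x % m.lam)))) := by
    intro x
    unfold Mach.nQ
    rw [hY, ifz_pos one_ne_zero]
  have hlt : j % (2 * m.E + 3) < 2 * m.E + 3 := Nat.mod_lt _ (by omega)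
  have hdl : ∀ y e, dig (2 ^ m.lam) y e < 2 ^ m.lam := fun y e => dig_lt (by positivity) _ _
  generalize hk : l / (m.G + 2) = k at *
  generalize hy : j / m.nE p = y at *
  generalize hcc : j % m.nE p / (2 * m.E + 3) + 1 = c at *
  generalize he : j % (2 * m.E + 3) = e at *
  generalize hi : s.nd (l + 1) = i at *
  generalize hg : s.sg (l + 1) = g at *
  -- queries which do not change
  have hQ0 : (e = 0 ∨ e = m.E + 1 ∨ e = 2 * m.E + 2) →
      ∀ x < J, m.nQ p l j a x = dig 2 (s.qa (x / m.lam)) (x % m.lam) := by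
    intro h0 x hx
    rw [hnQ x]
    rcases h0 with h0 | h0 | h0
    · rw [h0, ifz_zero]
      unfold ifz
      split_ifs <;> exact h.qa x hx
    · rw [ifz_pos (c := e) (by omega), le01_neg (x := e) (by omega), ifz_zero,
        le01_neg (x := m.E + 2) (y := e) (by omega), zero_mul, ifz_zero]
      unfold ifz
      split_ifs <;> exact h.qa x hx
    · rw [ifz_pos (c := e) (by omega), le01_neg (x := e) (by omega), ifz_zero,
        le01_neg (x := e) (y := 2 * m.E + 1) (by omega), mul_zero, ifz_zero]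
      unfold ifz
      split_ifs <;> exact h.qa x hx
  unfold Mach.opY
  rw [hi, hg]
  by_cases h0 : e = 0
  · rw [if_pos h0]
    refine build m hp h _ s.qa 0 0 0 (fun x hx => ?_) ⟨?_, by omega⟩ ⟨?_, by omega⟩
      ⟨?_, by omega⟩ (hQ0 (Or.inl h0)) h.q2
    · rw [hnR x]
      unfold Mach.yR
      rw [h0, ifz_zero]
      exact sca_case h hx _ _ _ _ rfl
    · rw [hMd, h0, ifz_zero]
    · rw [hNd, h0, ifz_zero]
    · rw [hSg, h0, ifz_zero]
  rw [if_neg h0]
  by_cases h1 : e ≤ m.E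
  · rw [if_pos h1]
    refine build m hp h s.R _ 1 (m.G + (e - 1)) 0 (fun x hx => ?_) ⟨?_, by omega⟩ ⟨?_, by omega⟩
      ⟨?_, by omega⟩ (fun x hx => ?_) (fun t ht => ?_)
    · rw [hnR x]
      unfold Mach.yR
      rw [ifz_pos h0, eq01_neg (x := e) (y := m.E + 1) (by omega), ifz_zero,
        eq01_neg (x := e) (y := 2 * m.E + 2) (by omega), ifz_zero, h.Rc hx]
    · rw [hMd, ifz_pos h0, le01_pos h1, ifz_pos one_ne_zero]
    · rw [hNd, ifz_pos h0, le01_pos h1, ifz_pos one_ne_zero]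
    · rw [hSg, ifz_pos h0, le01_pos h1, ifz_pos one_ne_zero]
    · rw [hnQ x]
      by_cases h3 : x / m.lam = k
      · rw [eq01_pos h3, ifz_pos one_ne_zero, ifz_pos h0, le01_pos h1, ifz_pos one_ne_zero, h3,
          Function.update_self]
      · rw [eq01_neg h3, ifz_zero, Function.update_of_ne h3, h.qa x hx]
    · by_cases ht2 : t = k
      · rw [ht2, Function.update_self]
        exact hdl _ _
      · rw [Function.update_of_ne ht2]
        exact h.q2 t ht
  rw [if_neg h1]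
  by_cases h2 : e = m.E + 1
  · rw [if_pos h2]
    refine build m hp h _ s.qa 0 0 0 (fun x hx => ?_) ⟨?_, by omega⟩ ⟨?_, by omega⟩
      ⟨?_, by omega⟩ (hQ0 (Or.inr (Or.inl h2))) h.q2
    · rw [hnR x]
      unfold Mach.yR
      rw [ifz_pos h0, eq01_pos h2, ifz_pos one_ne_zero, loN_eq, lnN_eq, min_eq_left hA.2.le]
      refine add_case h hx _ _ _ _ (fun o => fhat p (i * m.wn + m.E * m.wc) (m.F i y) o
        (m.vars p i s.R fun u => s.R (m.G * m.wn + u))) ?_
      refine hF p _ _ _ _ _ fun j' hj' => ?_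
      refine vars_cast hf h hA.2.le (m.G * m.wn) (m.E * m.wc) ?_ j' hj'
      have := hf.h1
      have h5 : (m.E + 1) * m.wc = m.E * m.wc + m.wc := by ring
      omega
    · rw [hMd, ifz_pos h0, le01_neg h1, ifz_zero, eq01_pos h2, ifz_pos one_ne_zero]
    · rw [hNd, ifz_pos h0, le01_neg h1, ifz_zero, eq01_pos h2, ifz_pos one_ne_zero]
    · rw [hSg, ifz_pos h0, le01_neg h1, ifz_zero, eq01_pos h2, ifz_pos one_ne_zero]
  rw [if_neg h2]
  by_cases h4 : e ≤ 2 * m.E + 1
  · rw [if_pos h4]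
    have h5 : m.E + 2 ≤ e := by omega
    refine build m hp h s.R _ 1 (m.G + (e - (m.E + 2))) 1 (fun x hx => ?_) ⟨?_, by omega⟩
      ⟨?_, by omega⟩ ⟨?_, by omega⟩ (fun x hx => ?_) (fun t ht => ?_)
    · rw [hnR x]
      unfold Mach.yR
      rw [ifz_pos h0, eq01_neg h2, ifz_zero,
        eq01_neg (x := e) (y := 2 * m.E + 2) (by omega), ifz_zero, h.Rc hx]
    · rw [hMd, ifz_pos h0, le01_neg h1, ifz_zero, eq01_neg h2, ifz_zero, le01_pos h4]
    · rw [hNd, ifz_pos h0, le01_neg h1, ifz_zero, eq01_neg h2, ifz_zero, le01_pos h4, one_mul]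
    · rw [hSg, ifz_pos h0, le01_neg h1, ifz_zero, eq01_neg h2, ifz_zero, le01_pos h4]
    · rw [hnQ x]
      by_cases h3 : x / m.lam = k
      · rw [eq01_pos h3, ifz_pos one_ne_zero, ifz_pos h0, le01_neg h1, ifz_zero, le01_pos h5,
          le01_pos h4, one_mul, ifz_pos one_ne_zero, h3, Function.update_self]
      · rw [eq01_neg h3, ifz_zero, Function.update_of_ne h3, h.qa x hx]
    · by_cases ht2 : t = k
      · rw [ht2, Function.update_self]
        exact hdl _ _
      · rw [Function.update_of_ne ht2]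
        exact h.q2 t ht
  rw [if_neg h4]
  have h5 : e = 2 * m.E + 2 := by omega
  refine build m hp h _ s.qa 0 0 0 (fun x hx => ?_) ⟨?_, by omega⟩ ⟨?_, by omega⟩
    ⟨?_, by omega⟩ (hQ0 (Or.inr (Or.inr h5))) h.q2
  · rw [hnR x]
    unfold Mach.yR
    rw [ifz_pos h0, eq01_neg h2, ifz_zero, eq01_pos h5, ifz_pos one_ne_zero]
    exact sca_case h hx _ _ _ _ (invN_cast hp _)
  · rw [hMd, ifz_pos h0, le01_neg h1, ifz_zero, eq01_neg h2, ifz_zero, le01_neg h4]
  · rw [hNd, ifz_pos h0, le01_neg h1, ifz_zero, eq01_neg h2, ifz_zero, le01_neg h4, zero_mul]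
  · rw [hSg, ifz_pos h0, le01_neg h1, ifz_zero, eq01_neg h2, ifz_zero, le01_neg h4]

/-- The operations of the evaluation of the polynomials of a node `G + j`. -/
theorem relZ {p : ℕ} [hpr : Fact p.Prime] {m : Mach} {J K : ℕ} {a : ℕ → ℕ} {s : Mach.St p}
    (hF : Pool.Agent.Helper78.Tok.FCAST_stmt) (hok : m.Ok) (hf : m.Fit p J K) (h : Dat m J K a s)
    {l j : ℕ} (hl : l < K * (m.G + 2)) (hm : l % (m.G + 2) = 0)
    (hA0 : ¬ (s.md (l + 1) = 2 ∧ s.nd (l + 1) < m.G))
    (hA : s.md (l + 1) = 2 ∧ s.nd (l + 1) ≤ m.G + m.E ∧ j < 3 * (p - 1)) :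
    Dat m J K (trc (5 * J) (m.opA p l j a)) (m.opZ l (l / (m.G + 2)) j s) := by
  have hp := hf.h5
  have hG := hf.h4
  have hlm := hok.hl
  have hJ : l + 1 < J := lt_of_le_of_lt hl hf.h2
  have e1 := h.md (l + 1) hJ
  have e2 := h.nd (l + 1) hJ
  have e3 := h.sg (l + 1) hJ
  have hkK : l / (m.G + 2) < K := by
    rw [Nat.div_lt_iff_lt_mul (by omega)]
    exact hl
  have hGi : m.G ≤ s.nd (l + 1) := by
    by_contra hcon
    exact hA0 ⟨hA.1, not_le.mp hcon⟩
  have hqk : m.qN a (l / (m.G + 2) + 1) = s.qa (l / (m.G + 2) + 1) := h.qN hok hf hkK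
  have hY : m.isY a l = 0 := by
    unfold Mach.isY
    rw [e1, e2, lt01_neg (by omega), mul_zero, mul_zero]
  have hZ : m.isZ p a l j = 1 := by
    unfold Mach.isZ
    rw [eq01_pos hm, e1, e2, eq01_pos hA.1, le01_pos hGi, le01_pos hA.2.1, lt01_pos hA.2.2]
  have hnR : ∀ x, m.nR p l j a x = m.zR p (s.nd (l + 1)) (s.qa (l / (m.G + 2) + 1)) j
      (s.sg (l + 1)) a x := by
    intro x
    unfold Mach.nR
    rw [hY, hZ, ifz_zero, ifz_pos one_ne_zero, hqk, e2, e3]
  have hMd : m.cMd p l j a = lt01 (j % 3) 2 := by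
    unfold Mach.cMd
    rw [hY, hZ, ifz_zero, ifz_pos one_ne_zero]
  have hNd : m.cNd p l j a = lt01 (j % 3) 2 * (m.G + m.src (s.nd (l + 1))) := by
    unfold Mach.cNd
    rw [hY, hZ, ifz_zero, ifz_pos one_ne_zero, e2]
  have hSg : m.cSg p l j a = eq01 (j % 3) 1 := by
    unfold Mach.cSg
    rw [hY, hZ, ifz_zero, ifz_pos one_ne_zero]
  have hnQ : ∀ x, m.nQ p l j a x = ifz (eq01 (x / m.lam) (l / (m.G + 2))) (a (5 * x + 4))
      (ifz (eq01 (j % 3) 0) (a (5 * x + 4)) (a (5 * (x + m.lam) + 4))) := by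
    intro x
    unfold Mach.nQ
    rw [hY, hZ, ifz_zero, one_mul]
  have hsrc : m.src (s.nd (l + 1)) ≤ m.E := by
    unfold Mach.src
    exact Nat.lt_succ_iff.mp (Nat.mod_lt _ (by omega))
  have hsG : m.G + m.src (s.nd (l + 1)) < p := by omega
  generalize hk : l / (m.G + 2) = k at *
  generalize hg : s.sg (l + 1) = g at *
  generalize hi : s.nd (l + 1) = i at *
  unfold Mach.opZ
  rw [hg, hi]
  by_cases h2 : j % 3 = 0
  · rw [if_pos h2]
    refine build m hp h _ _ 1 _ 0 (fun x hx => ?_) ⟨?_, by omega⟩ ⟨?_, hsG⟩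
      ⟨?_, by omega⟩ (fun x hx => ?_) (fun t ht => ?_)
    · rw [hnR x]
      unfold Mach.zR
      rw [h2, ifz_zero]
      exact sca_case h hx _ _ _ _ rfl
    · rw [hMd, h2, lt01_pos (by norm_num)]
    · rw [hNd, h2, lt01_pos (by norm_num), one_mul]
    · rw [hSg, h2, eq01_neg (by norm_num)]
    · rw [hnQ x, eq01_pos h2, ifz_pos one_ne_zero]
      by_cases h3 : x / m.lam = k
      · have h4 : x + m.lam < J := by
          have h5 : x < (k + 1) * m.lam := by
            rw [← Nat.div_lt_iff_lt_mul hlm]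
            omega
          have h6 := hf.h3
          have h7 : (k + 1) * m.lam + m.lam ≤ (K + 1) * m.lam := by
            have : (k + 2) * m.lam ≤ (K + 1) * m.lam := Nat.mul_le_mul_right _ (by omega)
            calc (k + 1) * m.lam + m.lam = (k + 2) * m.lam := by ring
              _ ≤ _ := this
          omega
        rw [eq01_pos h3, ifz_pos one_ne_zero, h.qa _ h4, Nat.add_div_right _ hlm,
          Nat.add_mod_right, h3, Function.update_self]
      · rw [eq01_neg h3, ifz_zero, Function.update_of_ne h3, h.qa x hx]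
    · by_cases ht2 : t = k
      · rw [ht2, Function.update_self]
        exact h.q2 _ hkK
      · rw [Function.update_of_ne ht2]
        exact h.q2 t ht
  rw [if_neg h2]
  have hQ : ∀ x < J, m.nQ p l j a x = dig 2 (s.qa (x / m.lam)) (x % m.lam) := by
    intro x hx
    rw [hnQ x, eq01_neg h2, ifz_zero]
    unfold ifz
    split_ifs <;> exact h.qa x hx
  by_cases h3 : j % 3 = 1
  · rw [if_pos h3]
    refine build m hp h _ s.qa 1 _ 1 (fun x hx => ?_) ⟨?_, by omega⟩ ⟨?_, hsG⟩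
      ⟨?_, by omega⟩ hQ h.q2
    · rw [hnR x]
      unfold Mach.zR
      rw [h3, ifz_pos one_ne_zero, Nat.sub_self, ifz_zero, loN_eq, lnN_eq]
      refine add_case h hx _ _ _ _ (fun o => fhat p (m.G * m.wn + m.wc) (m.H (s.qa (k + 1))) o
        (m.vars p m.G s.R fun u => s.R (m.G * m.wn + m.src i * m.wc + u))) ?_
      refine hF p _ _ _ _ _ fun j' hj' => ?_
      refine vars_cast hf h le_rfl (m.G * m.wn + m.src i * m.wc) m.wc ?_ j' hj'
      have h5 := hf.h1
      have h6 : (m.src i + 1) * m.wc ≤ (m.E + 1) * m.wc := Nat.mul_le_mul_right _ (by omega)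
      have h7 : (m.src i + 1) * m.wc = m.src i * m.wc + m.wc := by ring
      omega
    · rw [hMd, h3, lt01_pos (by norm_num)]
    · rw [hNd, h3, lt01_pos (by norm_num), one_mul]
    · rw [hSg, h3, eq01_pos rfl]
  rw [if_neg h3]
  have h4 : j % 3 = 2 := by omega
  refine build m hp h _ s.qa 0 0 0 (fun x hx => ?_) ⟨?_, by omega⟩ ⟨?_, by omega⟩
    ⟨?_, by omega⟩ hQ h.q2
  · rw [hnR x]
    unfold Mach.zR
    rw [h4, ifz_pos two_ne_zero, ifz_pos (c := 2 - 1) (by norm_num)]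
    exact sca_case h hx _ _ _ _ (invN_cast hp _)
  · rw [hMd, h4, lt01_neg (by norm_num)]
  · rw [hNd, h4, lt01_neg (by norm_num), zero_mul]
  · rw [hSg, h4, eq01_neg (by norm_num)]

/-- REL. -/
theorem REL (hF : Pool.Agent.Helper78.Tok.FCAST_stmt) : Pool.Agent.Helper78.Ep.REL_stmt := by
  intro m p hpr hok J K hf
  refine ⟨fun l hl j a s h => ?_, fun a s h => ?_⟩
  · rw [rel_iff] at h ⊢
    by_cases hm : l % (m.G + 2) = 0
    · have hop : m.op l j s = m.opE l (l / (m.G + 2)) j s := by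
        unfold Mach.op
        rw [if_pos hm]
      rw [hop]
      unfold Mach.opE
      by_cases hA : s.md (l + 1) = 2 ∧ s.nd (l + 1) < m.G
      · rw [if_pos hA]
        exact relY hF hok hf h hl hm hA
      rw [if_neg hA]
      by_cases hB : s.md (l + 1) = 2 ∧ s.nd (l + 1) ≤ m.G + m.E ∧ j < 3 * (p - 1)
      · rw [if_pos hB]
        exact relZ hF hok hf h hl hm hA hB
      rw [if_neg hB]
      have hp := hf.h5
      have hJ : l + 1 < J := lt_of_le_of_lt hl hf.h2
      have e1 := h.md (l + 1) hJ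
      have e2 := h.nd (l + 1) hJ
      have hN : m.isN a l = 0 := by
        unfold Mach.isN
        rw [hm, lt01_neg (lt_irrefl 0), zero_mul]
      have hP : m.isP a l j = 0 := by
        unfold Mach.isP
        rw [hm, lt01_neg (lt_irrefl 0), zero_mul]
      have hY : m.isY a l = 0 := by
        unfold Mach.isY
        rw [e1, e2, eq01_pos hm, one_mul]
        by_cases h1 : s.md (l + 1) = 2
        · rw [lt01_neg fun h2 => hA ⟨h1, h2⟩, mul_zero]
        · rw [eq01_neg h1, zero_mul]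
      have hZ : m.isZ p a l j = 0 := by
        unfold Mach.isZ
        rw [e1, e2, eq01_pos hm, one_mul]
        by_cases h1 : s.md (l + 1) = 2
        · by_cases h2 : s.nd (l + 1) ≤ m.G + m.E
          · rw [lt01_neg fun h3 => hB ⟨h1, h2, h3⟩, mul_zero]
          · rw [le01_neg h2, mul_zero, mul_zero, zero_mul]
        · rw [eq01_neg h1, zero_mul, zero_mul]
      refine rel_same hf h hY hZ s.R 0 0 0 (fun k hk => ?_) ⟨?_, by omega⟩ ⟨?_, by omega⟩
        ⟨?_, by omega⟩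
      · unfold Mach.nR
        rw [hY, hZ, hN, ifz_zero, ifz_zero, zero_mul, ifz_zero, h.Rc hk]
      · unfold Mach.cMd
        rw [hY, hZ, hN, ifz_zero, ifz_zero, ifz_zero, hP, ifz_zero]
      · unfold Mach.cNd
        rw [hY, hZ, hN, ifz_zero, ifz_zero, ifz_zero, hP, ifz_zero]
      · unfold Mach.cSg
        rw [hY, hZ, hN, ifz_zero, ifz_zero, ifz_zero, hP, ifz_zero]
    · exact relN hf h hl hm
  · have hD := (rel_iff m J K a s).1 h
    have hp := hf.h5
    have hJ := hf.h2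
    have hJ0 : 0 < J := by omega
    have e1 : a 1 = s.md 0 := by simpa using hD.md 0 hJ0
    have e2 : a 2 = s.nd 0 := by simpa using hD.nd 0 hJ0
    have e3 : a 3 = s.sg 0 := by simpa using hD.sg 0 hJ0
    have hq0 : m.qN a 0 = s.qa 0 := hD.qN hok hf (Nat.zero_le K)
    have hbase : ∀ x, m.baseA p a x = (a x + eq01 (s.md 0) 1 *
        (le01 m.G (s.nd 0) * le01 (s.nd 0) (m.G + m.E)) * (eq01 (x % 5) 0 *
        rgn (m.lo (s.nd 0)) m.wc (x / 5)) * (ifz (s.sg 0) 1 (p - 1) *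
          dig 2 (m.q0 + 2 ^ m.σ * m.M0 (s.qa 0)) (x / 5 - m.lo (s.nd 0)))) % p := by
      intro x
      unfold Mach.baseA
      rw [e1, e2, e3, hq0, loN_eq]
    have ht : ∀ x < 5 * J, trc (5 * J) (m.baseA p a) x = m.baseA p a x := fun x hx => if_pos hx
    have hsame : ∀ k < J, ∀ c, 0 < c → c < 5 → m.baseA p a (5 * k + c) = a (5 * k + c) := by
      intro k hk c hc hc7
      rw [hbase, eq01_neg (x := (5 * k + c) % 5) (by omega), zero_mul, mul_zero, zero_mul,
        add_zero, Nat.mod_eq_of_lt (hD.lt _ (by omega))]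
    unfold Mach.op0
    rw [rel_iff]
    by_cases hA : s.md 0 = 1 ∧ m.G ≤ s.nd 0 ∧ s.nd 0 ≤ m.G + m.E
    · rw [if_pos hA]
      refine ⟨fun x hx => ?_, fun k hk => ?_, fun k hk => ?_, fun k hk => ?_, fun k hk => ?_,
        fun k hk => ?_, hD.q2⟩
      · rw [ht x hx]
        exact Nat.mod_lt _ (by omega)
      · rw [ht _ (by omega), hbase]
        have h1 : 5 * k % 5 = 0 := by omega
        have h2 : 5 * k / 5 = k := by omega
        rw [h1, h2, eq01_pos hA.1, le01_pos hA.2.1, le01_pos hA.2.2, eq01_pos rfl, ←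
          ZMod.val_natCast]
        simp only [one_mul]
        congr 1
        rw [Nat.cast_add, hD.Rc hk]
        unfold Mach.addR
        show _ = (if m.lo (s.nd 0) ≤ k ∧ k < m.lo (s.nd 0) + m.wc then s.R k + sgz p (s.sg 0) *
          bitZ p (m.q0 + 2 ^ m.σ * m.M0 (s.qa 0)) (k - m.lo (s.nd 0)) else s.R k)
        by_cases hk2 : m.lo (s.nd 0) ≤ k ∧ k < m.lo (s.nd 0) + m.wc
        · rw [rgn_pos hk2, one_mul, if_pos hk2, Nat.cast_mul, sgn_cast]
          rfl
        · rw [rgn_neg hk2, zero_mul, if_neg hk2, Nat.cast_zero, add_zero]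
      · rw [ht _ (by omega), hsame k hk 1 (by norm_num) (by norm_num), hD.md k hk]
      · rw [ht _ (by omega), hsame k hk 2 (by norm_num) (by norm_num), hD.nd k hk]
      · rw [ht _ (by omega), hsame k hk 3 (by norm_num) (by norm_num), hD.sg k hk]
      · rw [ht _ (by omega), hsame k hk 4 (by norm_num) (by norm_num), hD.qa k hk]
    · rw [if_neg hA]
      have hzero : eq01 (s.md 0) 1 * (le01 m.G (s.nd 0) * le01 (s.nd 0) (m.G + m.E)) = 0 := by
        by_cases h1 : s.md 0 = 1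
        · by_cases h2 : m.G ≤ s.nd 0
          · rw [le01_neg (x := s.nd 0) fun h3 => hA ⟨h1, h2, h3⟩, mul_zero, mul_zero]
          · rw [le01_neg h2, zero_mul, mul_zero]
        · rw [eq01_neg h1, zero_mul]
      have hall : ∀ x < 5 * J, trc (5 * J) (m.baseA p a) x = a x := by
        intro x hx
        rw [ht x hx, hbase, hzero, zero_mul, zero_mul, add_zero,
          Nat.mod_eq_of_lt (hD.lt x hx)]
      refine ⟨fun x hx => ?_, fun k hk => ?_, fun k hk => ?_, fun k hk => ?_, fun k hk => ?_,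
        fun k hk => ?_, hD.q2⟩
      · rw [hall x hx]
        exact hD.lt x hx
      · rw [hall _ (by omega), hD.R k hk]
      · rw [hall _ (by omega), hD.md k hk]
      · rw [hall _ (by omega), hD.nd k hk]
      · rw [hall _ (by omega), hD.sg k hk]
      · rw [hall _ (by omega), hD.qa k hk]

end Pool.Agent.Helper77.Ep
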